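import Pool.Agent.H164.GW.Cnt3

/-!
# Lattice points in shells of generic `k`-ellipsoids in dimension `d ≥ 2 k + 1`

For a vector `θ = (θ_1, ..., θ_d)` of positive real numbers, `Shell k θ η r` is the set of the lattice
points `x` in the positive orthant with `|θ_1 x_1 ^ k + ... + θ_d x_d ^ k - r ^ k| < 1` and all
coordinates at least `η r`. For `d ≥ 2 k + 1` and almost all `θ` the number of these points is of the
order of magnitude `r ^ (d - k)` for all large real `r`, for all small `η > 0`. (The problem is about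
the `k`-spheres, `θ = (1, ..., 1)`.)
-/

set_option autoImplicit false

open MeasureTheory

namespace Pool.Agent.Results.MP_927be3_nt.GenericShells

/-- The points `x` with positive integer coordinates at least `η r` and
`|θ_1 x_1 ^ k + ... + θ_d x_d ^ k - r ^ k| < 1`. -/
def Shell {d : ℕ} (k : ℕ) (θ : Fin d → ℝ) (η r : ℝ) : Set (Fin d → ℕ) :=
  {x | (∀ i, η * r ≤ x i) ∧ |∑ i, θ i * (x i : ℝ) ^ k - r ^ k| < 1}

theorem result (k d : ℕ) (hk : 2 ≤ k) (hd : 2 * k + 1 ≤ d) :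
    ∀ᵐ θ : Fin d → ℝ, (∀ i, 0 < θ i) →
      ∃ η₀ : ℝ, 0 < η₀ ∧ ∀ η : ℝ, 0 < η → η ≤ η₀ → ∃ c C r₀ : ℝ, 0 < c ∧ ∀ r : ℝ, r₀ ≤ r →
        (Shell k θ η r).Finite ∧ c * r ^ (d - k) ≤ ((Shell k θ η r).ncard : ℝ) ∧
          ((Shell k θ η r).ncard : ℝ) ≤ C * r ^ (d - k) :=
  Pool.Agent.H164.GW.two_sided hk hd

end Pool.Agent.Results.MP_927be3_nt.GenericShells
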