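import Mathlib
import Pool.Agent.TH854.KS.K7

/-!
# Lower bounds for `d_0(k)` from the primes dividing `k`: `d_0(k) ≥ 4 k` for `k = 2^a`

If `N_{k,d}(r) ≍ r^{d-k}` holds in dimension `d`, then for every prime power `p ^ γ` the congruence
`y_1^k + ... + y_d^k ≡ 0 (mod p^γ)` has a solution with some `y_i` prime to `p`: otherwise
multiplication by `p` is a bijection from `S_{k,d}(p^j)` onto `S_{k,d}(p^(j+1))` for large `j`, while
`(p^j)^(d-k)` tends to infinity (the dimensions `d ≤ k + 1` are excluded by another argument). If the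
`k`-th powers of all integers are `0` or `1` modulo `p ^ γ`, this requires `d ≥ p ^ γ`.
-/

open Finset

namespace Pool.Agent.Results.MP_927be3_nt.LocalObstructions

/-- The arithmetic `k`-sphere `S_{k,d}(r)` of radius `r` in dimension `d`. -/
def sphere (k d : ℕ) (r : ℝ) : Set (Fin d → ℤ) := {m | ∑ i, |(m i : ℝ)| ^ k = r ^ k}

/-- `N_{k,d}(r) ≍ r^{d-k}`: there are `0 < c ≤ C` and `r₀` with `c r^{d-k} ≤ N_{k,d}(r) ≤ C r^{d-k}`
for all radii `r ≥ r₀`, `r > 0`, with non-empty `S_{k,d}(r)`. -/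
def OrderHolds (k d : ℕ) : Prop :=
  ∃ c C r₀ : ℝ, 0 < c ∧ c ≤ C ∧ ∀ r : ℝ, 0 < r → r₀ ≤ r → (sphere k d r).Nonempty →
    c * r ^ ((d : ℝ) - k) ≤ ((sphere k d r).ncard : ℝ) ∧
      ((sphere k d r).ncard : ℝ) ≤ C * r ^ ((d : ℝ) - k)

/-- Let `k ≥ 3`, `d ≥ 1` and let the order of magnitude `N_{k,d}(r) ≍ r^{d-k}` hold. Then
`d ≥ k + 2`; for every prime `p` and every `γ` the congruence `∑ y_i^k ≡ 0 (mod p^γ)` in `d` variables
has a solution with some `y_i` not divisible by `p`; `d ≥ 2^(τ+2)` if `2^τ` divides `k`, `τ ≥ 1`; and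
`d ≥ p^(τ+1)` for all primes `p` and all `τ ≥ 0` such that `(p - 1) p^τ` divides `k`. So
`d_0(k) ≥ 4 k` if `k ≥ 4` is a power of two. -/
theorem result (k : ℕ) (hk : 3 ≤ k) (d : ℕ) (hd : 1 ≤ d) (h : OrderHolds k d) :
    k + 2 ≤ d ∧
    (∀ p : ℕ, p.Prime → ∀ γ : ℕ, ∃ y : Fin d → ℕ, p ^ γ ∣ ∑ i, y i ^ k ∧ ∃ i, ¬ p ∣ y i) ∧
    (∀ τ : ℕ, 1 ≤ τ → 2 ^ τ ∣ k → 2 ^ (τ + 2) ≤ d) ∧
    (∀ p τ : ℕ, p.Prime → (p - 1) * p ^ τ ∣ k → p ^ (τ + 1) ≤ d) ∧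
    (∀ a : ℕ, k = 2 ^ a → 4 * k ≤ d) := by
  obtain ⟨c, C, r₀, hc, _, h⟩ := h
  have hH : Pool.Agent.TH854.KS.Holds k d := ⟨c, C, r₀, hc, h⟩
  have h1 : k + 2 ≤ d := by
    by_contra hcon
    exact Pool.Agent.TH854.KS.fails_low hk hd (by omega) hH
  have h2 : ∀ τ : ℕ, 1 ≤ τ → 2 ^ τ ∣ k → 2 ^ (τ + 2) ≤ d := fun τ hτ hdvd =>
    Pool.Agent.TH854.KS.bound_two hk (by omega) hH hτ hdvd
  refine ⟨h1, fun p hp γ => Pool.Agent.TH854.KS.primitive_of_holds hk (by omega) hH hp γ, h2,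
    fun p τ hp hdvd => Pool.Agent.TH854.KS.bound_odd hk (by omega) hH hp hdvd, ?_⟩
  intro a ha
  have ha1 : 1 ≤ a := by
    rcases Nat.eq_zero_or_pos a with h0 | h0
    · subst h0
      simp at ha
      omega
    · exact h0
  have h3 := h2 a ha1 (by rw [ha])
  rw [ha]
  calc 4 * 2 ^ a = 2 ^ (a + 2) := by ring
    _ ≤ d := h3

end Pool.Agent.Results.MP_927be3_nt.LocalObstructions
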